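import Pool.Agent.Helper49.LC.St

set_option autoImplicit false

open scoped ContDiff

namespace Pool.Agent.Helper42.LC

open Pool.Agent.Helper14.LK
open Pool.Agent.Helper49.LC

private lemma sy_inv {n : ℕ} {f g : WW n → WW n} (h : SD f g) (w a b : WW n) :
    om (fderiv ℝ g w a) (fderiv ℝ g w b) = om a b := by
  have hf : Differentiable ℝ f := h.sm.differentiable (by simp)
  have hg : Differentiable ℝ g := h.smi.differentiable (by simp)
  have h1 : ∀ c : WW n, fderiv ℝ f (g w) (fderiv ℝ g w c) = c := by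
    intro c
    have e1 : fderiv ℝ (fun w => f (g w)) w = (fderiv ℝ f (g w)).comp (fderiv ℝ g w) :=
      fderiv_comp w (hf (g w)) (hg w)
    have e2 : (fun w => f (g w)) = fun w : WW n => w := by
      funext w
      exact h.right w
    rw [e2, fderiv_fun_id] at e1
    have e3 := congrArg (fun A : WW n →L[ℝ] WW n => A c) e1
    simpa using e3.symm
  have h2 := h.sy (g w) (fderiv ℝ g w a) (fderiv ℝ g w b)
  rw [h1 a, h1 b] at h2
  exact h2.symm

private lemma sd_comp {n : ℕ} {F Fi G Gi : WW n → WW n} (hF : SD F Fi) (hG : SD G Gi) :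
    SD (fun w => Gi (F w)) (fun w => Fi (G w)) where
  sm := hG.smi.comp hF.sm
  smi := hF.smi.comp hG.sm
  left w := by rw [hG.right, hF.left]
  right w := by rw [hF.right, hG.left]
  sy w a b := by
    have h1 : Differentiable ℝ F := hF.sm.differentiable (by simp)
    have h2 : Differentiable ℝ Gi := hG.smi.differentiable (by simp)
    have e1 : fderiv ℝ (fun w => Gi (F w)) w = (fderiv ℝ Gi (F w)).comp (fderiv ℝ F w) :=
      fderiv_comp w (h2 (F w)) (h1 w)
    rw [e1, ContinuousLinearMap.comp_apply, ContinuousLinearMap.comp_apply, sy_inv hG, hF.sy]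

theorem hIN1 (hDAT : StDAT) (hIP1 : StIP1) (hSWS : StSWS) (hGRP : StGRP) : StIN1 := by
  rintro n hn L ⟨α, β, R, a₀, hL, hα, hβ, ha₀, he⟩
  obtain ⟨a, f, f', g, g', ha, hf, hfP, hg, hgP⟩ :=
    hDAT n hn α β R hα hβ ⟨a₀, ha₀, he⟩ 1 one_pos le_rfl
  have ha4 : 4 * R < ‖a‖ := by rwa [div_one] at ha
  obtain ⟨F, Fi, hF1, hF2⟩ := hIP1 n a R 0 f f' hα.pos ha4 hf
  obtain ⟨G, Gi, hG1, hG2⟩ := hIP1 n a R 1 g g' hα.pos ha4 hg
  have hfS := (hGRP.2.2.2.2.2.1 n _ _ f f' hf).1
  have hgS := (hGRP.2.2.2.2.2.1 n _ _ g g' hg).1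
  have h := hSWS n α β R hα hβ a 1 one_pos le_rfl ha f f' g g' F Fi G Gi hfS.left hfS.right
    hgS.left hgS.right hfP hgP hF1 hG1
  refine ⟨fun w => Gi (F w), fun w => Fi (G w), sd_comp hF2 hG2, ?_⟩
  rw [← hL, ← h, Set.image_image]

end Pool.Agent.Helper42.LC
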